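import Pool.Agent.Helper47.FLG.Fun

/-!
# Project FLG (MP_c98eff_gt), packet FST: the first bad time
-/

namespace Pool.Agent.Helper47.FLG

open Finset Pool.Agent.Helper47.RFn Pool.Agent.Helper73.RFn

noncomputable section

namespace FST

lemma clA {X : Type*} [TopologicalSpace X] {K : Set X} (hK : IsClosed K) {J : Type} (f : J → X → ℝ)
    (g : J → ℝ) (hf : ∀ j, ContinuousOn (f j) K) : IsClosed {p | p ∈ K ∧ ∀ j, f j p = g j} := by
  have h : {p | p ∈ K ∧ ∀ j, f j p = g j} = K ∩ ⋂ j, (K ∩ (f j) ⁻¹' {g j}) := by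
    ext p
    simp only [Set.mem_ofPred_eq, Set.mem_inter_iff, Set.mem_iInter, Set.mem_preimage,
      Set.mem_singleton_iff]
    constructor
    · rintro ⟨h1, h2⟩
      exact ⟨h1, fun j => ⟨h1, h2 j⟩⟩
    · rintro ⟨h1, h2⟩
      exact ⟨h1, fun j => (h2 j).2⟩
  rw [h]
  exact hK.inter (isClosed_iInter fun j => (hf j).preimage_isClosed_of_isClosed hK isClosed_singleton)

lemma clB {X : Type*} [TopologicalSpace X] {K : Set X} (hK : IsClosed K) (f : X → ℝ)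
    (g : ℝ) (hf : ContinuousOn f K) : IsClosed {p | p ∈ K ∧ f p ≤ g} :=
  hf.preimage_isClosed_of_isClosed hK isClosed_Iic

lemma iso_le {n : ℕ} {ν : Ix n → ℝ} {ι : Ix n → Fin n → ℝ} (h : Iso ν ι) (i : Ix n) (a : Fin n) :
    |ι i a| ≤ 1 := by
  have h1 := h.orth a a
  rw [if_pos rfl] at h1
  have h2 : ι i a * ι i a ≤ ∑ j, ι j a * ι j a :=
    Finset.single_le_sum (f := fun j => ι j a * ι j a) (fun j _ => mul_self_nonneg _) (mem_univ i)
  rw [h1] at h2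
  exact abs_le_one_iff_mul_self_le_one.2 h2

lemma vec_le {n : ℕ} {u : Fin n → ℂ} (hu : ∑ i, Complex.normSq (u i) = 1) : ‖u‖ ≤ 1 := by
  rw [pi_norm_le_iff_of_nonneg zero_le_one]
  intro i
  have h3 : Complex.normSq (u i) ≤ 1 :=
    le_trans (Finset.single_le_sum (f := fun i => Complex.normSq (u i))
      (fun j _ => Complex.normSq_nonneg _) (Finset.mem_univ i)) hu.le
  rw [Complex.normSq_eq_norm_sq] at h3
  nlinarith [norm_nonneg (u i)]

/-- the data -/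
abbrev XX (n : ℕ) := ℝ × EE n × (Ix n → Fin n → ℝ) × (Fin n → ℂ) × (Fin n → ℂ)

/-- the compact set -/
def KK (n : ℕ) (t0 tb : ℝ) : Set (XX n) :=
  Set.Icc t0 tb ×ˢ (Metric.sphere (0 : EE n) 1) ×ˢ (Metric.closedBall (0 : Ix n → Fin n → ℝ) 1) ×ˢ
    (Metric.closedBall (0 : Fin n → ℂ) 1) ×ˢ (Metric.closedBall (0 : Fin n → ℂ) 1)

lemma KK_compact (n : ℕ) (t0 tb : ℝ) : IsCompact (KK n t0 tb) :=
  isCompact_Icc.prod ((isCompact_sphere _ _).prod ((isCompact_closedBall _ _).prod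
    ((isCompact_closedBall _ _).prod (isCompact_closedBall _ _))))

lemma KK_mem {n : ℕ} {t0 tb T : ℝ} (h0 : 0 ≤ t0) (hT : tb < T) :
    ∀ p ∈ KK n t0 tb, p.1 ∈ Set.Ico 0 T ∧ p.2.1 ≠ 0 := by
  rintro ⟨t, x, ι, z, w⟩ ⟨h1, h2, -⟩
  refine ⟨⟨by have := h1.1; simp only at this ⊢; linarith, by have := h1.2; simp only at this ⊢; linarith⟩, ?_⟩
  intro h3
  simp only at h2 h3
  rw [h3] at h2
  simp at h2

lemma smc {n : ℕ} {t0 tb T : ℝ} (f : ℝ → EE n → ℝ) (hf : SmFam (Set.Ico 0 T) f) (h0 : 0 ≤ t0)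
    (hT : tb < T) : ContinuousOn (fun p : XX n => f p.1 p.2.1) (KK n t0 tb) := by
  have hpair : ContinuousOn (fun p : XX n => (p.1, p.2.1)) (KK n t0 tb) := by fun_prop
  have hmaps : Set.MapsTo (fun p : XX n => (p.1, p.2.1)) (KK n t0 tb) (Set.Ico 0 T ×ˢ {0}ᶜ) :=
    fun p hp => ⟨(KK_mem h0 hT p hp).1, (KK_mem h0 hT p hp).2⟩
  exact (hf.cont []).comp hpair hmaps

end FST

open FST in
theorem p_FST (hFHM : FhmStmt) (hRP2 : RFn.Goal_RP2) (hRP4 : RFn.Goal_RP4)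
    (hFRF : RFn.Goal_FRF) (hWQ : RFn.Goal_WQ) : FstStmt := by
  intro n hn T l0 c A1 A θ hT hl0 hc hA1 hFl hlam
  obtain ⟨hfr, hfl⟩ := hFHM n
  obtain ⟨hFrm, hR, -, hL, -, -, hN, -⟩ := hfl (Set.Ico 0 T) A θ hFl
  have q0 : ∀ z w, 0 ≤ qf (Id4 n) z w := fun z w =>
    (hWQ n 0 0 0 (by simp [Matrix.IsSymm]) (fun v => by simp [rq]) (fun v => by simp [rq]) z w).1
  -- homogeneity
  have hinv : ∀ x : EE n, x ≠ 0 → 0 < ‖x‖⁻¹ := fun x hx => inv_pos.2 (norm_pos_iff.2 hx)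
  have hnorm : ∀ x : EE n, x ≠ 0 → ‖‖x‖⁻¹ • x‖ = 1 := fun x hx => by
    rw [norm_smul, norm_inv, norm_norm, inv_mul_cancel₀ (norm_ne_zero_iff.2 hx)]
  have homN : ∀ t ∈ Set.Ico 0 T, ∀ x, x ≠ 0 → (fun a => nfc (A t) a (‖x‖⁻¹ • x)) =
      (fun a => nfc (A t) a x) := fun t ht x hx => funext fun a =>
    ((hN a).sm t ht).hom _ x (hinv x hx)
  have homR : ∀ t ∈ Set.Ico 0 T, ∀ x, x ≠ 0 → RT (A t) (θ t) (‖x‖⁻¹ • x) = RT (A t) (θ t) x :=
    fun t ht x hx => by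
      funext a b c d
      exact ((hR a b c d).sm t ht).hom _ x (hinv x hx)
  have homL : ∀ t ∈ Set.Ico 0 T, ∀ x, x ≠ 0 → lamf (A t) (θ t) (‖x‖⁻¹ • x) = lamf (A t) (θ t) x :=
    fun t ht x hx => (hL.sm t ht).hom _ x (hinv x hx)
  have hcurv : ∀ t ∈ Set.Ico 0 T, ∀ x, x ≠ 0 → ∀ ι, Iso (fun a => nfc (A t) a x) ι →
      IsCurv (pull ι (RT (A t) (θ t) x)) := fun t ht x hx ι hι => by
    have hF := hFrm t ht
    obtain ⟨-, -, -, -, -, -, -, -, -, -, -, -, -, hh1, hh2, -⟩ := hFRF n (A t) (θ t) hF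
    have h1 : IsCurv (RT (A t) (θ t) x) := hh1 x hx
    have h2 : ∀ a b c, ∑ d, RT (A t) (θ t) x a b c d * nfc (A t) d x = 0 := hh2 x hx
    exact (hRP2 n (fun a => nfc (A t) a x) ι (RT (A t) (θ t) x) hι ⟨h1, h2⟩).1
  have hnu : ∀ t ∈ Set.Ico 0 T, ∀ x, x ≠ 0 → ∑ a, nfc (A t) a x ^ 2 = 1 := fun t ht x hx => by
    obtain ⟨-, -, -, -, -, -, -, -, -, -, -, h, -⟩ := hfr (A t) (θ t) (hFrm t ht)
    exact h x hx
  -- the bad set
  obtain ⟨B, hB⟩ : ∃ B : Set ℝ, B = {t | 0 < t ∧ t < T ∧ ∃ x, x ≠ 0 ∧ A1 ≤ t * lamf (A t) (θ t) x ∧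
      NQF c (A t) (θ t) x} := ⟨_, rfl⟩
  have hgood : ∀ t, 0 < t → t < T → t ∉ B → ∀ x, x ≠ 0 → A1 ≤ t * lamf (A t) (θ t) x →
      QPF c (A t) (θ t) x := by
    intro t ht0 htT htB x hx hA ι hι z' w'
    by_contra hcon
    push Not at hcon
    have hq : qf (Id4 n) z' w' ≠ 0 := by
      intro hq
      have := ((hRP4 n).2.1 z' w').1 hq _ (hcurv t ⟨ht0.le, htT⟩ x hx ι hι)
      rw [this, hq, mul_zero] at hcon
      exact lt_irrefl _ hcon
    apply htB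
    rw [hB]
    exact ⟨ht0, htT, x, hx, hA, ι, hι, z', w', hq, hcon.le⟩
  by_cases hne : B.Nonempty
  swap
  · left
    intro t ht0 htT x hx hA
    exact hgood t ht0 htT (fun h => hne ⟨t, h⟩) x hx hA
  right
  obtain ⟨tb, htb⟩ := hne
  have htb' := htb
  rw [hB] at htb'
  obtain ⟨htb0, htbT, -⟩ := htb'
  -- lower bound
  obtain ⟨Λ, hΛ⟩ := (isCompact_Icc.prod (isCompact_sphere (0 : EE n) 1)).exists_bound_of_continuousOn
    (f := fun p : ℝ × EE n => lamf (A p.1) (θ p.1) p.2) (s := Set.Icc 0 (T / 2) ×ˢ Metric.sphere 0 1)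
    ((hL.cont []).mono (by
      rintro ⟨t, x⟩ ⟨h1, h2⟩
      refine ⟨⟨h1.1, by have := h1.2; simp only at this; linarith⟩, ?_⟩
      intro h3
      simp only [Set.mem_singleton_iff] at h3
      rw [h3] at h2
      simp at h2))
  obtain ⟨t0, ht0⟩ : ∃ t0, t0 = min (T / 2) (A1 / (|Λ| + 1)) := ⟨_, rfl⟩
  have hΛ1 : 0 < |Λ| + 1 := by positivity
  have ht0p : 0 < t0 := by
    rw [ht0]
    exact lt_min (by linarith) (by positivity)
  have hlow : ∀ t ∈ B, t0 ≤ t := by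
    intro t ht
    rw [hB] at ht
    obtain ⟨h1, h2, x, hx, h3, -⟩ := ht
    by_contra hcon
    push Not at hcon
    have h4 : t < T / 2 := lt_of_lt_of_le hcon (by rw [ht0]; exact min_le_left _ _)
    have h5 : t < A1 / (|Λ| + 1) := lt_of_lt_of_le hcon (by rw [ht0]; exact min_le_right _ _)
    rw [lt_div_iff₀ hΛ1] at h5
    have h6 := hΛ (t, ‖x‖⁻¹ • x) ⟨⟨h1.le, h4.le⟩, by simp [hnorm x hx]⟩
    simp only at h6
    rw [homL t ⟨h1.le, h2⟩ x hx, Real.norm_eq_abs] at h6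
    have h7 : lamf (A t) (θ t) x ≤ |Λ| + 1 := by
      have := le_abs_self (lamf (A t) (θ t) x)
      have := le_abs_self Λ
      linarith
    have h8 : t * lamf (A t) (θ t) x ≤ t * (|Λ| + 1) := mul_le_mul_of_nonneg_left h7 h1.le
    linarith
  -- compactness
  have hKc := KK_compact n t0 tb
  have hKcl := hKc.isClosed
  have hmem : ∀ p ∈ KK n t0 tb, p.1 ∈ Set.Ico 0 T ∧ p.2.1 ≠ 0 := KK_mem ht0p.le htbT
  have cN : ∀ a, ContinuousOn (fun p : XX n => nfc (A p.1) a p.2.1) (KK n t0 tb) := fun a =>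
    smc (fun t => nfc (A t) a) (hN a) ht0p.le htbT
  have cR : ∀ a b c d, ContinuousOn (fun p : XX n => RT (A p.1) (θ p.1) p.2.1 a b c d) (KK n t0 tb) :=
    fun a b c d => smc (fun t => Rf (A t) (θ t) a b c d) (hR a b c d) ht0p.le htbT
  have cL : ContinuousOn (fun p : XX n => lamf (A p.1) (θ p.1) p.2.1) (KK n t0 tb) :=
    smc (fun t => lamf (A t) (θ t)) hL ht0p.le htbT
  have cι : ∀ i a, ContinuousOn (fun p : XX n => p.2.2.1 i a) (KK n t0 tb) := fun i a => by fun_prop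
  have cz : ∀ a, ContinuousOn (fun p : XX n => p.2.2.2.1 a) (KK n t0 tb) := fun a => by fun_prop
  have cw : ∀ a, ContinuousOn (fun p : XX n => p.2.2.2.2 a) (KK n t0 tb) := fun a => by fun_prop
  have cq : ∀ S : XX n → T4 n, (∀ a b c d, ContinuousOn (fun p => S p a b c d) (KK n t0 tb)) →
      ContinuousOn (fun p : XX n => qf (S p) p.2.2.2.1 p.2.2.2.2) (KK n t0 tb) := by
    intro S hS
    unfold qf
    apply Complex.continuous_re.comp_continuousOn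
    refine continuousOn_finsetSum _ fun a _ => continuousOn_finsetSum _ fun b _ =>
      continuousOn_finsetSum _ fun c _ => continuousOn_finsetSum _ fun d _ => ?_
    exact ((((Complex.continuous_ofReal.comp_continuousOn (hS a b c d)).mul (cz a)).mul (cw b)).mul
      (continuous_star.comp_continuousOn (cz c))).mul (continuous_star.comp_continuousOn (cw d))
  have cP : ∀ a b c d, ContinuousOn (fun p : XX n => pull p.2.2.1 (RT (A p.1) (θ p.1) p.2.1) a b c d)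
      (KK n t0 tb) := by
    intro a b c d
    unfold pull
    refine continuousOn_finsetSum _ fun i _ => continuousOn_finsetSum _ fun j _ =>
      continuousOn_finsetSum _ fun k _ => continuousOn_finsetSum _ fun l _ => ?_
    exact ((((cR i j k l).mul (cι i a)).mul (cι j b)).mul (cι k c)).mul (cι l d)
  -- the closed conditions
  have s1 := clA (K := KK n t0 tb) hKcl (J := Fin n × Fin n) (fun j p => ∑ i, p.2.2.1 i j.1 * p.2.2.1 i j.2)
    (fun j => if j.1 = j.2 then 1 else 0)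
    (fun j => continuousOn_finsetSum _ fun i _ => (cι i j.1).mul (cι i j.2))
  have s2 := clA (K := KK n t0 tb) hKcl (J := Fin n) (fun a p => ∑ i, nfc (A p.1) i p.2.1 * p.2.2.1 i a)
    (fun _ => 0) (fun a => continuousOn_finsetSum _ fun i _ => (cN i).mul (cι i a))
  have s3 := clA (K := KK n t0 tb) hKcl (J := Ix n × Ix n)
    (fun j p => ∑ a, p.2.2.1 j.1 a * p.2.2.1 j.2 a + nfc (A p.1) j.1 p.2.1 * nfc (A p.1) j.2 p.2.1)
    (fun j => if j.1 = j.2 then 1 else 0)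
    (fun j => (continuousOn_finsetSum _ fun a _ => (cι j.1 a).mul (cι j.2 a)).add ((cN j.1).mul (cN j.2)))
  have s4 := clA (K := KK n t0 tb) hKcl (J := Unit) (fun _ p => qf (Id4 n) p.2.2.2.1 p.2.2.2.2)
    (fun _ => 1) (fun _ => cq (fun _ => Id4 n) fun a b c d => continuousOn_const)
  have s5 := clB (K := KK n t0 tb) hKcl (fun p => -(p.1 * lamf (A p.1) (θ p.1) p.2.1)) (-A1)
    ((continuousOn_fst.mul cL).neg)
  have s6 := clB (K := KK n t0 tb) hKcl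
    (fun p => qf (pull p.2.2.1 (RT (A p.1) (θ p.1) p.2.1)) p.2.2.2.1 p.2.2.2.2 -
      c * lamf (A p.1) (θ p.1) p.2.1) 0 ((cq _ cP).sub (continuousOn_const.mul cL))
  have sD := ((((s1.inter s2).inter s3).inter s4).inter s5).inter s6
  obtain ⟨D, hD⟩ : ∃ D : Set (XX n), D = {p | p ∈ KK n t0 tb ∧
      Iso (fun a => nfc (A p.1) a p.2.1) p.2.2.1 ∧ qf (Id4 n) p.2.2.2.1 p.2.2.2.2 = 1 ∧
      A1 ≤ p.1 * lamf (A p.1) (θ p.1) p.2.1 ∧
      qf (pull p.2.2.1 (RT (A p.1) (θ p.1) p.2.1)) p.2.2.2.1 p.2.2.2.2 ≤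
        c * lamf (A p.1) (θ p.1) p.2.1} := ⟨_, rfl⟩
  have hDcl : IsClosed D := by
    convert sD using 1
    rw [hD]
    ext p
    simp only [Set.mem_ofPred_eq, Set.mem_inter_iff, Prod.forall, neg_le_neg_iff, sub_nonpos]
    constructor
    · rintro ⟨h1, h2, h3, h4, h5⟩
      refine ⟨⟨⟨⟨⟨⟨h1, fun a b => h2.orth a b⟩, h1, fun a => h2.perp a⟩, h1, fun i j => ?_⟩, h1,
        fun _ => h3⟩, h1, h4⟩, h1, h5⟩
      rw [h2.compl i j]
      ring
    · rintro ⟨⟨⟨⟨⟨⟨h1, h2⟩, -, h3⟩, -, h4⟩, -, h5⟩, -, h6⟩, -, h7⟩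
      refine ⟨h1, ⟨hnu _ (hmem p h1).1 _ (hmem p h1).2, h2, h3, fun i j => ?_⟩, h5 (), h6, h7⟩
      have := h4 i j
      linarith
  have hDc : IsCompact D := hKc.of_isClosed_subset hDcl (by rw [hD]; exact fun p hp => hp.1)
  have hIc : IsCompact (Prod.fst '' D) := hDc.image continuous_fst
  have hBI : ∀ t, t ∈ B → t ≤ tb → t ∈ Prod.fst '' D := by
    intro t ht httb
    have ht00 := hlow t ht
    rw [hB] at ht
    obtain ⟨h1, h2, x, hx, h3, ι, hι, z', w', h4, h5⟩ := ht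
    have hI : t ∈ Set.Ico 0 T := ⟨h1.le, h2⟩
    obtain ⟨z, w, n1, n2, -, n4, n5⟩ := ((hRP4 n).2.1 z' w').2 h4
    have hι' : Iso (fun a => nfc (A t) a (‖x‖⁻¹ • x)) ι := by
      rw [homN t hI x hx]
      exact hι
    refine ⟨(t, ‖x‖⁻¹ • x, ι, z, w), ?_, rfl⟩
    rw [hD]
    refine ⟨⟨⟨ht00, httb⟩, by simp [hnorm x hx], ?_, ?_, ?_⟩, hι', n4, ?_, ?_⟩
    · simp only [Metric.mem_closedBall, dist_zero_right]
      rw [pi_norm_le_iff_of_nonneg zero_le_one]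
      intro i
      rw [pi_norm_le_iff_of_nonneg zero_le_one]
      intro a
      rw [Real.norm_eq_abs]
      exact iso_le hι i a
    · simp only [Metric.mem_closedBall, dist_zero_right]
      exact vec_le n1
    · simp only [Metric.mem_closedBall, dist_zero_right]
      exact vec_le n2
    · simp only
      rw [homL t hI x hx]
      exact h3
    · simp only
      rw [homL t hI x hx, homR t hI x hx]
      rw [n5 _ (hcurv t hI x hx ι hι)] at h5
      have h6 : 0 < qf (Id4 n) z' w' := lt_of_le_of_ne (q0 _ _) (Ne.symm h4)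
      have h7 : qf (Id4 n) z' w' * qf (pull ι (RT (A t) (θ t) x)) z w ≤
          qf (Id4 n) z' w' * (c * lamf (A t) (θ t) x) := by linarith
      exact le_of_mul_le_mul_left h7 h6
  have hIB : ∀ t, t ∈ Prod.fst '' D → t ∈ B ∧ t0 ≤ t ∧ t ≤ tb := by
    rintro t ⟨p, hp, rfl⟩
    rw [hD] at hp
    obtain ⟨h1, h2, h3, h4, h5⟩ := hp
    have h6 := hmem p h1
    have h7 : p.1 ∈ Set.Icc t0 tb := h1.1
    refine ⟨?_, h7.1, h7.2⟩
    rw [hB]
    refine ⟨lt_of_lt_of_le ht0p h7.1, h6.1.2, p.2.1, h6.2, h4, p.2.2.1, h2, p.2.2.2.1, p.2.2.2.2, ?_, ?_⟩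
    · rw [h3]; exact one_ne_zero
    · rw [h3, mul_one]
      exact h5
  obtain ⟨s, hs1, hs2⟩ := hIc.exists_isLeast ⟨tb, hBI tb htb le_rfl⟩
  obtain ⟨hsB, hs3, hs4⟩ := hIB s hs1
  have hsB' := hsB
  rw [hB] at hsB'
  obtain ⟨hs0, hsT, y, hy, hy1, hy2⟩ := hsB'
  refine ⟨s, hs0, hsT, ⟨y, hy, hy1, hy2⟩, ?_⟩
  intro t ht0' hts x hx hA
  refine hgood t ht0' (hts.trans hsT) ?_ x hx hA
  intro htB
  have := hs2 (hBI t htB (hts.le.trans hs4))
  linarith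

end

end Pool.Agent.Helper47.FLG
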