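import Pool.Agent.Helper47.FLG.Pde

/-!
# Project FLG (MP_c98eff_gt), packet SFO: the soft estimate in odd dimensions
-/

namespace Pool.Agent.Helper47.FLG

open Finset Pool.Agent.Helper47.RFn

noncomputable section

namespace SFO

variable {n : ℕ} {T : ℝ}

/-- the heat operator as a linear map -/
def HopL {n : ℕ} {T : ℝ} (F : FB n T) : F.B →ₗ[ℝ] F.B :=
  (F.D : F.B →ₗ[ℝ] F.B) - ∑ a, (F.H a : F.B →ₗ[ℝ] F.B) ∘ₗ (F.H a : F.B →ₗ[ℝ] F.B)

theorem Hop_eq {n : ℕ} {T : ℝ} (F : FB n T) (f : F.B) : F.Hop f = HopL F f := by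
  simp [HopL, FB.Hop, FB.Lap, LinearMap.sum_apply]

def cz {n : ℕ} (z w : Fin n → ℂ) (i j k l : Fin n) : ℝ := (z i * w j * star (z k) * star (w l)).re

def fq {n : ℕ} {T : ℝ} (F : FB n T) (S : Ix n → Ix n → Ix n → Ix n → F.B) (z w : Ix n → ℂ) : F.B :=
  ∑ i, ∑ j, ∑ k, ∑ l, cz z w i j k l • S i j k l

theorem qf_cz {n : ℕ} (R : T4 n) (z w : Fin n → ℂ) :
    qf R z w = ∑ i, ∑ j, ∑ k, ∑ l, R i j k l * cz z w i j k l := by
  unfold qf cz
  simp only [Complex.re_sum]
  refine sum_congr rfl fun i _ => sum_congr rfl fun j _ => sum_congr rfl fun k _ =>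
    sum_congr rfl fun l _ => ?_
  rw [mul_assoc, mul_assoc, mul_assoc, Complex.re_ofReal_mul, ← mul_assoc, ← mul_assoc]

theorem ev_fq {n : ℕ} {T : ℝ} (F : FB n T) (S : Ix n → Ix n → Ix n → Ix n → F.B) (z w : Ix n → ℂ)
    (x : F.Z) (t : TI T) :
    F.ev x t (fq F S z w) = qf (fun i j k l => F.ev x t (S i j k l)) z w := by
  rw [qf_cz]
  simp only [fq, map_sum, map_smul, smul_eq_mul]
  refine sum_congr rfl fun i _ => sum_congr rfl fun j _ => sum_congr rfl fun k _ =>
    sum_congr rfl fun l _ => mul_comm _ _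

theorem Hop_fq {n : ℕ} {T : ℝ} (F : FB n T) (S : Ix n → Ix n → Ix n → Ix n → F.B) (z w : Ix n → ℂ) :
    F.Hop (fq F S z w) = fq F (fun i j k l => F.Hop (S i j k l)) z w := by
  simp only [Hop_eq, fq, map_sum, map_smul]



/-- the form of the unit sphere -/
theorem qI {n : ℕ} (z w : Fin n → ℂ) : qf (Id4 n) z w =
    (∑ i, Complex.normSq (z i)) * (∑ i, Complex.normSq (w i)) -
      Complex.normSq (∑ i, z i * star (w i)) := by
  have h1 : ∀ i j k l, Id4 n i j k l = (if i = k then (1:ℝ) else 0) * (if j = l then 1 else 0) -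
      (if j = k then 1 else 0) * (if i = l then 1 else 0) := fun i j k l => by
    simp only [Id4, wdg, Matrix.one_apply]
    ring
  unfold qf
  have h2 : (∑ a, ∑ b, ∑ c, ∑ d, (Id4 n a b c d : ℂ) * z a * w b * star (z c) * star (w d)) =
      (∑ a, z a * star (z a)) * (∑ b, w b * star (w b)) -
      (∑ a, z a * star (w a)) * (∑ b, w b * star (z b)) := by
    simp only [h1, Complex.ofReal_sub, Complex.ofReal_mul, sub_mul, Finset.sum_sub_distrib,
      Finset.sum_mul_sum]
    congr 1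
    · refine sum_congr rfl fun a _ => sum_congr rfl fun b _ => ?_
      simp only [apply_ite Complex.ofReal, Complex.ofReal_one, Complex.ofReal_zero, ite_mul, mul_ite, one_mul,
        zero_mul, mul_one, mul_zero, Finset.sum_ite_eq, Finset.mem_univ, if_true]
      ring
    · refine sum_congr rfl fun a _ => sum_congr rfl fun b _ => ?_
      simp only [apply_ite Complex.ofReal, Complex.ofReal_one, Complex.ofReal_zero, ite_mul, mul_ite, one_mul,
        zero_mul, mul_one, mul_zero, Finset.sum_ite_eq, Finset.mem_univ, if_true]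
      ring
  rw [h2]
  have h3 : ∀ z : Fin n → ℂ, (∑ a, z a * star (z a)) = ((∑ i, Complex.normSq (z i) : ℝ) : ℂ) := by
    intro z
    rw [Complex.ofReal_sum]
    exact sum_congr rfl fun a _ => Complex.mul_conj _
  have h4 : (∑ b, w b * star (z b)) = star (∑ a, z a * star (w a)) := by
    rw [star_sum]
    exact sum_congr rfl fun a _ => by simp [mul_comm]
  rw [h3, h3, h4]
  have h5 : ∀ u : ℂ, u * star u = ((Complex.normSq u : ℝ) : ℂ) := fun u => Complex.mul_conj u
  rw [h5, ← Complex.ofReal_mul, ← Complex.ofReal_sub, Complex.ofReal_re]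

theorem normSq_iota {n : ℕ} {ν : Ix n → ℝ} {ι : Ix n → Fin n → ℝ} (h : Iso ν ι) (z : Fin n → ℂ) :
    ∑ i, Complex.normSq (∑ a, (ι i a : ℂ) * z a) = ∑ a, Complex.normSq (z a) := by
  have h1 : ∀ u : ℂ, ((Complex.normSq u : ℝ) : ℂ) = u * star u := fun u => (Complex.mul_conj u).symm
  have : ((∑ i, Complex.normSq (∑ a, (ι i a : ℂ) * z a) : ℝ) : ℂ) =
      ((∑ a, Complex.normSq (z a) : ℝ) : ℂ) := by
    simp only [Complex.ofReal_sum, h1]
    calc ∑ i, (∑ a, (ι i a : ℂ) * z a) * star (∑ a, (ι i a : ℂ) * z a)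
        = ∑ i, ∑ a, ∑ b, ((ι i a * ι i b : ℝ) : ℂ) * (z a * star (z b)) := by
          refine sum_congr rfl fun i _ => ?_
          rw [star_sum, Finset.sum_mul_sum]
          refine sum_congr rfl fun a _ => sum_congr rfl fun b _ => ?_
          simp
          ring
      _ = ∑ a, ∑ b, ((∑ i, ι i a * ι i b : ℝ) : ℂ) * (z a * star (z b)) := by
          rw [Finset.sum_comm]
          refine sum_congr rfl fun a _ => ?_
          rw [Finset.sum_comm]
          refine sum_congr rfl fun b _ => ?_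
          rw [Complex.ofReal_sum, Finset.sum_mul]
      _ = _ := by
          refine sum_congr rfl fun a _ => ?_
          simp only [h.orth, apply_ite Complex.ofReal, Complex.ofReal_one, Complex.ofReal_zero,
            ite_mul, one_mul, zero_mul, Finset.sum_ite_eq, Finset.mem_univ, if_true]
  exact_mod_cast this



theorem ev_I {n : ℕ} {T : ℝ} (F : FB n T) (z : F.Z) (t : TI T) :
    (fun i j k l => F.ev z t (F.I i j k l)) = wdg (Pm (F.nv z t)) (Pm (F.nv z t)) := by
  have h : ∀ i j, F.ev z t (F.P i j) = Pm (F.nv z t) i j := fun i j => by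
    simp only [FB.P, FB.dl, Pm, FB.nv, map_sub, map_mul]
    split_ifs <;> simp
  funext i j k l
  simp only [FB.I, map_sub, map_mul, h, wdg]
  ring



/-- index sets -/
def K1 (n : ℕ) : Set ((Ix n → ℂ) × (Ix n → ℂ)) :=
  {q | ∑ i, Complex.normSq (q.1 i) ≤ 1 ∧ ∑ i, Complex.normSq (q.2 i) ≤ 1}



theorem K1_compact (n : ℕ) : IsCompact (K1 n) := by
  apply Metric.isCompact_of_isClosed_isBounded
  · apply IsClosed.inter
    · exact isClosed_le (continuous_finsetSum _ fun i _ =>
        Complex.continuous_normSq.comp ((continuous_apply i).comp continuous_fst)) continuous_const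
    · exact isClosed_le (continuous_finsetSum _ fun i _ =>
        Complex.continuous_normSq.comp ((continuous_apply i).comp continuous_snd)) continuous_const
  · refine (Metric.isBounded_closedBall (x := (0 : (Ix n → ℂ) × (Ix n → ℂ))) (r := 1)).subset ?_
    rintro q ⟨h1, h2⟩
    have key : ∀ u : Ix n → ℂ, ∑ i, Complex.normSq (u i) ≤ 1 → ‖u‖ ≤ 1 := fun u hu => by
      rw [pi_norm_le_iff_of_nonneg zero_le_one]
      intro i
      have h3 : Complex.normSq (u i) ≤ 1 :=
        le_trans (Finset.single_le_sum (f := fun i => Complex.normSq (u i))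
          (fun j _ => Complex.normSq_nonneg _) (Finset.mem_univ i)) hu
      rw [Complex.normSq_eq_norm_sq] at h3
      nlinarith [norm_nonneg (u i)]
    rw [mem_closedBall_zero_iff, Prod.norm_def]
    exact max_le (key _ h1) (key _ h2)



theorem cont_cz (i j k l : Ix n) :
    Continuous (fun q : (Ix n → ℂ) × (Ix n → ℂ) => cz q.1 q.2 i j k l) := by
  unfold cz
  fun_prop

theorem cont_fq (F : FB n T) (hF : F.Base) (S : Ix n → Ix n → Ix n → Ix n → F.B) :
    Continuous (fun q : ((Ix n → ℂ) × (Ix n → ℂ)) × (F.Z × TI T) =>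
      F.ev q.2.1 q.2.2 (fq F S q.1.1 q.1.2)) := by
  simp only [fq, map_sum, map_smul, smul_eq_mul]
  refine continuous_finsetSum _ fun i _ => continuous_finsetSum _ fun j _ =>
    continuous_finsetSum _ fun k _ => continuous_finsetSum _ fun l _ => ?_
  exact ((cont_cz i j k l).comp continuous_fst).mul ((hF.cont (S i j k l)).comp continuous_snd)



theorem qI_le {z w : Fin n → ℂ} (hz : ∑ i, Complex.normSq (z i) ≤ 1)
    (hw : ∑ i, Complex.normSq (w i) ≤ 1) : qf (Id4 n) z w ≤ 1 := by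
  rw [qI]
  have h1 : 0 ≤ ∑ i, Complex.normSq (z i) := Finset.sum_nonneg fun i _ => Complex.normSq_nonneg _
  have h2 : 0 ≤ ∑ i, Complex.normSq (w i) := Finset.sum_nonneg fun i _ => Complex.normSq_nonneg _
  have h3 := Complex.normSq_nonneg (∑ i, z i * star (w i))
  nlinarith


/-- lam of an array -/
def LS (F : FB n T) (S : Ix n → Ix n → Ix n → Ix n → F.B) : F.B :=
  (1 / (n:ℝ)) • ∑ i, ∑ e, S i e i e

/-- the main part of the family -/
def gg (F : FB n T) (K : ℝ) (S : Ix n → Ix n → Ix n → Ix n → F.B) (z w : Ix n → ℂ) : F.B :=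
  K • fq F S z w - LS F S * fq F F.I z w

/-- the family -/
def ff (F : FB n T) (K : ℝ) (S : Ix n → Ix n → Ix n → Ix n → F.B) (z w : Ix n → ℂ) : F.B :=
  gg F K S z w + (1 - fq F F.I z w)

theorem ev_LS (hRP2 : Goal_RP2) (F : FB n T) (x : F.Z) (t : TI T) (ι : Ix n → Fin n → ℝ)
    (hι : Iso (F.nv x t) ι) (S : Ix n → Ix n → Ix n → Ix n → F.B)
    (h2 : Hor (F.nv x t) (fun i j k l => F.ev x t (S i j k l))) :
    F.ev x t (LS F S) = lam (pull ι (fun i j k l => F.ev x t (S i j k l))) := by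
  obtain ⟨-, -, -, -, l, -⟩ := hRP2 n _ ι _ hι h2
  rw [l]
  simp only [LS, map_smul, map_sum, smul_eq_mul, RFn.Ric]
  ring

theorem ev_fI (hRP2 : Goal_RP2) (hRP3 : Goal_RP3) (F : FB n T) (x : F.Z) (t : TI T)
    (ι : Ix n → Fin n → ℝ) (hι : Iso (F.nv x t) ι) (z w : Ix n → ℂ) :
    F.ev x t (fq F F.I z w) = qf (Id4 n) (pullv ι z) (pullv ι w) := by
  obtain ⟨e1, e2, -⟩ := hRP3 n _ ι hι
  obtain ⟨-, -, -, -, -, -, -, q', -⟩ := hRP2 n _ ι _ hι e2
  rw [ev_fq, ev_I, q' z w, e1]

theorem ev_gg (hRP2 : Goal_RP2) (hRP3 : Goal_RP3) (F : FB n T) (K : ℝ) (x : F.Z)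
    (t : TI T) (ι : Ix n → Fin n → ℝ) (hι : Iso (F.nv x t) ι)
    (S : Ix n → Ix n → Ix n → Ix n → F.B)
    (h2 : Hor (F.nv x t) (fun i j k l => F.ev x t (S i j k l))) (z w : Ix n → ℂ) :
    F.ev x t (gg F K S z w) =
      K * qf (pull ι (fun i j k l => F.ev x t (S i j k l))) (pullv ι z) (pullv ι w) -
        lam (pull ι (fun i j k l => F.ev x t (S i j k l))) *
          qf (Id4 n) (pullv ι z) (pullv ι w) := by
  obtain ⟨-, -, -, -, -, -, -, q, -⟩ := hRP2 n _ ι _ hι h2
  unfold gg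
  rw [map_sub, map_smul, map_mul, ev_fI hRP2 hRP3 F x t ι hι, ev_LS hRP2 F x t ι hι S h2, ev_fq,
    q z w, smul_eq_mul]

theorem ev_ff (hRP2 : Goal_RP2) (hRP3 : Goal_RP3) (F : FB n T) (K : ℝ) (x : F.Z)
    (t : TI T) (ι : Ix n → Fin n → ℝ) (hι : Iso (F.nv x t) ι)
    (S : Ix n → Ix n → Ix n → Ix n → F.B)
    (h2 : Hor (F.nv x t) (fun i j k l => F.ev x t (S i j k l))) (z w : Ix n → ℂ) :
    F.ev x t (ff F K S z w) =
      K * qf (pull ι (fun i j k l => F.ev x t (S i j k l))) (pullv ι z) (pullv ι w) -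
        lam (pull ι (fun i j k l => F.ev x t (S i j k l))) *
          qf (Id4 n) (pullv ι z) (pullv ι w) + (1 - qf (Id4 n) (pullv ι z) (pullv ι w)) := by
  unfold ff
  rw [map_add, map_sub, map_one, ev_gg hRP2 hRP3 F K x t ι hι S h2, ev_fI hRP2 hRP3 F x t ι hι]

theorem Hop_ff (hPRD : Goal_PRD) (F : FB n T) (hF : F.Base) (K : ℝ)
    (S : Ix n → Ix n → Ix n → Ix n → F.B) (z w : Ix n → ℂ) :
    F.Hop (ff F K S z w) = gg F K (fun i j k l => F.Hop (S i j k l)) z w := by
  obtain ⟨-, -, hI, hDI, -, hfI, -⟩ := (hPRD n T F).2 hF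
  have h1 : F.Hop (1 : F.B) = 0 := by
    simp [FB.Hop, FB.Lap]
  have h2 : ∀ i j k l, F.Hop (F.I i j k l) = 0 := fun i j k l => by
    simp [FB.Hop, FB.Lap, hI, hDI]
  have h4 : F.Hop (fq F F.I z w) = 0 := by
    rw [Hop_fq]
    simp [fq, h2]
  have h5 : F.Hop (LS F S * fq F F.I z w) =
      LS F (fun i j k l => F.Hop (S i j k l)) * fq F F.I z w := by
    have e1 : ∀ g : F.B, g * fq F F.I z w = fq F (fun i j k l => g * F.I i j k l) z w := by
      intro g
      simp only [fq, Finset.mul_sum, mul_smul_comm]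
    have e2 : F.Hop (LS F S) = LS F (fun i j k l => F.Hop (S i j k l)) := by
      simp only [LS, Hop_eq, map_smul, map_sum]
    rw [e1, e1, Hop_fq, ← e2]
    simp only [hfI]
  have h3 : F.Hop (ff F K S z w) = K • F.Hop (fq F S z w) - F.Hop (LS F S * fq F F.I z w) +
      (F.Hop 1 - F.Hop (fq F F.I z w)) := by
    simp only [ff, gg, Hop_eq, map_add, map_sub, map_smul]
  rw [h3, h1, h4, h5, Hop_fq]
  simp [gg]

theorem cont_ff (F : FB n T) (hF : F.Base) (K : ℝ) (S : Ix n → Ix n → Ix n → Ix n → F.B) :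
    Continuous (fun q : (K1 n) × (F.Z × TI T) =>
      F.ev q.2.1 q.2.2 (ff F K S q.1.1.1 q.1.1.2)) := by
  simp only [ff, gg, map_add, map_sub, map_one, map_mul, map_smul, smul_eq_mul]
  have c : Continuous (fun q : (K1 n) × (F.Z × TI T) =>
      ((q.1.1, q.2) : ((Ix n → ℂ) × (Ix n → ℂ)) × (F.Z × TI T))) := by fun_prop
  have cS := (cont_fq F hF S).comp c
  have cI := (cont_fq F hF F.I).comp c
  have cL : Continuous (fun q : (K1 n) × (F.Z × TI T) => F.ev q.2.1 q.2.2 (LS F S)) :=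
    (hF.cont (LS F S)).comp continuous_snd
  exact ((continuous_const.mul cS).sub (cL.mul cI)).add (continuous_const.sub cI)

/-- bound of lam near time zero -/
theorem lam_bd (F : FB n T) (h : ∀ i j k l, F.Bd0 (F.R i j k l)) :
    ∃ C t0 : ℝ, 0 < C ∧ 0 < t0 ∧ t0 < T ∧ ∀ z (t : TI T), (t : ℝ) < t0 → F.ev z t F.lam ≤ C := by
  choose C t0 h0 h1 h2 using h
  obtain ⟨m, hm⟩ : ∃ m : ℝ, m = (univ : Finset (Ix n × Ix n)).inf'
      ⟨(0, 0), mem_univ _⟩ (fun x => t0 x.1 x.2 x.1 x.2) := ⟨_, rfl⟩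
  have hm1 : ∀ i j, m ≤ t0 i j i j := by
    intro i j
    rw [hm]
    exact Finset.inf'_le (fun x : Ix n × Ix n => t0 x.1 x.2 x.1 x.2) (mem_univ (i, j))
  refine ⟨1 / (n : ℝ) * (∑ i, ∑ j, |C i j i j|) + 1, m, ?_, ?_, lt_of_le_of_lt (hm1 0 0) (h1 0 0 0 0), ?_⟩
  · have h3 : 0 ≤ ∑ i, ∑ j, |C i j i j| := sum_nonneg fun _ _ => sum_nonneg fun _ _ => abs_nonneg _
    positivity
  · rw [hm]
    exact (Finset.lt_inf'_iff _).2 fun x _ => h0 _ _ _ _
  · intro z t ht
    have e : F.ev z t F.lam = 1 / (n : ℝ) * ∑ i, ∑ j, F.ev z t (F.R i j i j) := by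
      simp only [FB.lam, FB.Ric, map_smul, map_sum, smul_eq_mul]
    rw [e]
    have h3 : ∑ i, ∑ j, F.ev z t (F.R i j i j) ≤ ∑ i, ∑ j, |C i j i j| := by
      refine sum_le_sum fun i _ => sum_le_sum fun j _ => ?_
      exact (le_abs_self _).trans ((h2 i j i j z t (lt_of_lt_of_le ht (hm1 i j))).trans (le_abs_self _))
    have h4 : 1 / (n : ℝ) * ∑ i, ∑ j, F.ev z t (F.R i j i j) ≤ 1 / (n : ℝ) * ∑ i, ∑ j, |C i j i j| :=
      mul_le_mul_of_nonneg_left h3 (by positivity)
    linarith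

end SFO

open SFO in
theorem g_SFO (hEVG : G_EVG) (hMP3 : RFn.Goal_MP3) (hCPO : G_CPO)
    (hNW : G_NW) (hFG1 : G_FG1) (hFG2 : G_FG2) (hRP1 : RFn.Goal_RP1) (hRP2 : RFn.Goal_RP2)
    (hRP3 : RFn.Goal_RP3) (hRP4 : RFn.Goal_RP4) (hLN : RFn.Goal_LN) (hCL : RFn.Goal_CL)
    (hPRD : RFn.Goal_PRD) (hQB : RFn.Goal_QB) (hWQ : RFn.Goal_WQ) : G_SFO := by
  intro n hn hodd
  obtain ⟨c, hc0, hc⟩ := hCPO n hn hodd
  have hn1 : 1 ≤ n := by omega
  have hn4 : (4:ℝ) ≤ n := by exact_mod_cast hn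
  obtain ⟨qa, qs, Ra, Rs, la, ls, Rw, -, RI, lI, -, rqa, rqs, rq1⟩ := hLN n
  have lI := lI hn1
  obtain ⟨cQ, cw, cId, cadd, csmul, -, cRic, -, -⟩ := hCL n
  obtain ⟨fgadd, fgsmul, fgId, -⟩ := hFG1 n
  obtain ⟨nw1, nw2, -⟩ := hNW n hn
  obtain ⟨-, -, -, -, -, -, lamQ⟩ := hQB n
  -- constants
  obtain ⟨C1, hC1⟩ : ∃ C1 : ℝ, C1 = 1 + 4 * (n : ℝ) ^ 6 := ⟨_, rfl⟩
  have hC1p : 0 < C1 := by rw [hC1]; positivity
  obtain ⟨c2, hc2⟩ : ∃ c2 : ℝ, c2 = c / (8 * n) := ⟨_, rfl⟩
  have hc2p : 0 < c2 := by rw [hc2]; positivity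
  obtain ⟨K, hK⟩ : ∃ K : ℝ, K = 1 / c + 2 * C1 / c + 1 / c2 + n := ⟨_, rfl⟩
  have hi1 : 0 < 1 / c := by positivity
  have hi2 : 0 < 2 * C1 / c := by positivity
  have hi3 : 0 < 1 / c2 := by positivity
  have hKn : (n : ℝ) ≤ K := by rw [hK]; linarith
  have hK0 : 0 < K := by linarith
  have hKc : 1 ≤ K * c := by
    have : 1 / c * c = 1 := by field_simp
    nlinarith
  have hKc1 : 2 * C1 ≤ K * c := by
    have : 2 * C1 / c * c = 2 * C1 := by field_simp
    nlinarith
  have hKc2 : 1 ≤ K * c2 := by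
    have : 1 / c2 * c2 = 1 := by field_simp
    nlinarith
  refine ⟨1 / (2 * K), by positivity, 2 * K, by positivity, ?_⟩
  intro T F hF hRF hBd hlam hFG
  have hb := hF.toBase
  have htpos : ∀ t : TI T, 0 < (t : ℝ) := fun t => t.2.1
  have q0 : ∀ z w, 0 ≤ qf (Id4 n) z w := fun z w =>
    (hWQ n 0 0 0 (by simp [Matrix.IsSymm]) (fun v => by simp [rq]) (fun v => by simp [rq]) z w).1
  -- the correction
  obtain ⟨bet, hbet⟩ := hb.comp (fun x : ℝ => x⁻¹) (Set.Ioi 0) isOpen_Ioi
    (by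
      intro x hx
      exact (contDiffAt_inv ℝ (ne_of_gt hx)).contDiffWithinAt)
    F.tt (fun z t => by rw [hb.tt_ev]; exact htpos t)
  have hch := hb.chain (fun x : ℝ => x⁻¹) (Set.Ioi 0) isOpen_Ioi
    (by
      intro x hx
      exact (contDiffAt_inv ℝ (ne_of_gt hx)).contDiffWithinAt)
    F.tt bet (fun z t => by rw [hb.tt_ev]; exact htpos t) hbet
  have hbev : ∀ z (t : TI T), F.ev z t bet = (t : ℝ)⁻¹ := by
    intro z t
    rw [hbet, hb.tt_ev]
  have hbH : ∀ a, F.H a bet = 0 := by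
    intro a
    apply hb.ext
    intro z t
    rw [(hch z t).1 a, hb.tt_H, map_zero, mul_zero]
  have hbD : ∀ z (t : TI T), F.ev z t (F.D bet) = -(F.ev z t bet) ^ 2 := by
    intro z t
    have ht := htpos t
    rw [(hch z t).2.2, hb.tt_D, map_one, mul_one, hbev, hb.tt_ev, deriv_inv]
    field_simp
  have hbpos : ∀ z t, 0 < F.ev z t bet := by
    intro z t
    rw [hbev]
    have := htpos t
    positivity
  have hEV := fun z t ι hι => hEVG n (by omega) T F hF hRF bet hbH z t ι hι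
  have hnu : ∀ z t, ∑ i, F.nv z t i ^ 2 = 1 := fun z t => by
    have := congrArg (F.ev z t) hb.nunu
    simpa [FB.nv, map_sum, map_pow] using this
  -- facts on `s`
  have hs1 : ∀ z t ι, Iso (F.nv z t) ι → FG (pull ι (F.rv z t) + F.ev z t bet • Id4 n) :=
    fun z t ι hι => fgId _ _ (hbpos z t).le (hFG z t ι hι)
  have hs2 : ∀ z t ι, Iso (F.nv z t) ι → lam (pull ι (F.rv z t) + F.ev z t bet • Id4 n) =
      F.ev z t F.lam + F.ev z t bet * ((n:ℝ) - 1) := fun z t ι hι => by
    obtain ⟨-, -, -, -, e5, -⟩ := hEV z t ι hι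
    rw [la, ls, lI, e5]
  have hs3 : ∀ z t ι, Iso (F.nv z t) ι → ∀ z' w', F.ev z t bet * qf (Id4 n) z' w' ≤
      qf (pull ι (F.rv z t) + F.ev z t bet • Id4 n) z' w' := fun z t ι hι z' w' => by
    rw [qa, qs]
    have := (nw2 _ (hFG z t ι hι)).2 z' w'
    linarith
  have : CompactSpace (SFO.K1 n) := isCompact_iff_compactSpace.1 (K1_compact n)
  have hmain : ∀ (k : SFO.K1 n) z (t : TI T), 0 < F.ev z t (ff F K (Sg F bet) k.1.1 k.1.2) := by
    intro k z t
    refine hMP3 n T F hb (SFO.K1 n) (fun k => ff F K (Sg F bet) k.1.1 k.1.2)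
      (cont_ff F hb K (Sg F bet)) 0 t le_rfl t.2.2 ?_ ?_ k z t t.2.1 le_rfl
    · -- near time zero
      obtain ⟨C, t0, hC, h0, h0T, hl⟩ := lam_bd F hBd
      refine ⟨min t0 (1 / (C + 1)), lt_min h0 (by positivity), ?_⟩
      intro k z t _ ht
      rw [zero_add] at ht
      obtain ⟨ι, hι⟩ := hRP1 n (F.nv z t) (hnu z t)
      obtain ⟨e1, e2, -⟩ := hEV z t ι hι
      obtain ⟨-, -, -, -, -, -, -, -, -, -, nn, qle⟩ := hRP3 n _ ι hι
      have h1 : F.ev z t F.lam ≤ C := hl z t (lt_of_lt_of_le ht (min_le_left _ _))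
      have h2 : (t : ℝ) < 1 / (C + 1) := lt_of_lt_of_le ht (min_le_right _ _)
      have h3 : C + 1 < F.ev z t bet := by
        rw [hbev]
        rw [lt_div_iff₀ (by linarith)] at h2
        rw [lt_inv_comm₀ (by linarith) (htpos t)]
        rw [← one_div, lt_div_iff₀ (by linarith)]
        exact h2
      rw [ev_ff hRP2 hRP3 F K z t ι hι (Sg F bet) e2, e1, hs2 z t ι hι]
      have h4 := hs3 z t ι hι (pullv ι k.1.1) (pullv ι k.1.2)
      have h5 : qf (Id4 n) (pullv ι k.1.1) (pullv ι k.1.2) ≤ 1 :=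
        (qle _ _).trans (qI_le k.2.1 k.2.2)
      have h6 := q0 (pullv ι k.1.1) (pullv ι k.1.2)
      set q := qf (Id4 n) (pullv ι k.1.1) (pullv ι k.1.2) with hq
      set Qs := qf (pull ι (F.rv z t) + F.ev z t bet • Id4 n) (pullv ι k.1.1) (pullv ι k.1.2) with hQs
      set β := F.ev z t bet with hβ
      have h7 : K * (β * q) ≤ K * Qs := mul_le_mul_of_nonneg_left h4 hK0.le
      have h8 : 0 ≤ β * q := mul_nonneg (by linarith) h6
      have h9 : (n : ℝ) * (β * q) ≤ K * (β * q) := mul_le_mul_of_nonneg_right hKn h8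
      have h10 : F.ev z t F.lam * q ≤ C * q := mul_le_mul_of_nonneg_right h1 h6
      have h11 : (C + 1) * q ≤ β * q := mul_le_mul_of_nonneg_right h3.le h6
      rcases h6.eq_or_lt with h12 | h12
      · rw [← h12] at h7 h9 h10 ⊢
        nlinarith
      · nlinarith
    · -- touching point
      intro k z t' ht0 htT hz hall
      obtain ⟨ι, hι⟩ := hRP1 n (F.nv z t') (hnu z t')
      obtain ⟨e1, e2, e3, e4, e5, -⟩ := hEV z t' ι hι
      have e6 := e4 _ rfl
      obtain ⟨-, -, -, -, -, -, -, -, pz, pv, nn, qle⟩ := hRP3 n _ ι hι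
      have hz' : F.ev z t' (ff F K (Sg F bet) k.1.1 k.1.2) = 0 := hz
      rw [ev_ff hRP2 hRP3 F K z t' ι hι (Sg F bet) e2, e1] at hz'
      have h4 := hs3 z t' ι hι (pullv ι k.1.1) (pullv ι k.1.2)
      have h5 : qf (Id4 n) (pullv ι k.1.1) (pullv ι k.1.2) ≤ 1 :=
        (qle _ _).trans (qI_le k.2.1 k.2.2)
      have h6 := q0 (pullv ι k.1.1) (pullv ι k.1.2)
      have hsFG := hs1 z t' ι hι
      have hls := hs2 z t' ι hι
      obtain ⟨s, hs⟩ : ∃ s, s = pull ι (F.rv z t') + F.ev z t' bet • Id4 n := ⟨_, rfl⟩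
      rw [← hs] at hz' h4 hsFG hls e6
      have hlp : 0 < lam s := by
        rw [hls]
        have := hlam z t'
        have := hbpos z t'
        nlinarith
      -- `q_I = 1`
      have hq1 : qf (Id4 n) (pullv ι k.1.1) (pullv ι k.1.2) = 1 ∧
          K * qf s (pullv ι k.1.1) (pullv ι k.1.2) = lam s := by
        by_cases hq : qf (Id4 n) (pullv ι k.1.1) (pullv ι k.1.2) = 0
        · exfalso
          have := ((hRP4 n).2.1 _ _).1 hq s hsFG.1
          rw [this, hq] at hz'
          norm_num at hz'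
        · obtain ⟨z', w', n1, n2, -, n4, n5⟩ := ((hRP4 n).2.1 _ _).2 hq
          have e7 := hall ⟨(fun i => ∑ a, (ι i a : ℂ) * z' a, fun i => ∑ a, (ι i a : ℂ) * w' a), by
            refine ⟨?_, ?_⟩
            · show ∑ i, Complex.normSq (∑ a, (ι i a : ℂ) * z' a) ≤ 1
              rw [normSq_iota hι, n1]
            · show ∑ i, Complex.normSq (∑ a, (ι i a : ℂ) * w' a) ≤ 1
              rw [normSq_iota hι, n2]⟩ z
          have e8 : F.ev z t' (ff F K (Sg F bet) (fun i => ∑ a, (ι i a : ℂ) * z' a)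
              (fun i => ∑ a, (ι i a : ℂ) * w' a)) = K * qf s z' w' - lam s := by
            rw [ev_ff hRP2 hRP3 F K z t' ι hι (Sg F bet) e2, e1, pz, pz, n4, ← hs]
            ring
          have e9 : 0 ≤ K * qf s z' w' - lam s := by
            rw [← e8]
            exact e7
          have e10 := n5 s hsFG.1
          have e11 : 0 ≤ qf (Id4 n) (pullv ι k.1.1) (pullv ι k.1.2) * (K * qf s z' w' - lam s) :=
            mul_nonneg h6 e9
          rw [e10] at hz'
          have e12 : qf (Id4 n) (pullv ι k.1.1) (pullv ι k.1.2) = 1 := by nlinarith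
          refine ⟨e12, ?_⟩
          rw [e10]
          rw [e12] at hz' ⊢
          linarith
      obtain ⟨hq1, hKq⟩ := hq1
      rw [hq1, mul_one] at h4
      -- case distinction
      have hβp := hbpos z t'
      obtain ⟨β, hβ⟩ : ∃ β, β = F.ev z t' bet := ⟨_, rfl⟩
      rw [hbD, ← hβ] at e6
      rw [← hβ] at h4 hβp
      rcases le_or_gt β (c2 * lam s) with hcase | hcase
      · -- (i)
        have hqs : qf s (pullv ι k.1.1) (pullv ι k.1.2) ≤
            c * lam s * qf (Id4 n) (pullv ι k.1.1) (pullv ι k.1.2) := by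
          rw [hq1, mul_one]
          have h7 : qf s (pullv ι k.1.1) (pullv ι k.1.2) ≤ K * c * qf s (pullv ι k.1.1) (pullv ι k.1.2) := by
            have : 0 ≤ qf s (pullv ι k.1.1) (pullv ι k.1.2) := by linarith
            nlinarith
          calc qf s (pullv ι k.1.1) (pullv ι k.1.2)
              ≤ K * c * qf s (pullv ι k.1.1) (pullv ι k.1.2) := h7
            _ = c * (K * qf s (pullv ι k.1.1) (pullv ι k.1.2)) := by ring
            _ = c * lam s := by rw [hKq]
        have h8 := hc s hsFG hlp _ _ hqs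
        rw [hq1, mul_one] at h8
        obtain ⟨-, -, -, -, -, -, f7, -, f9, -⟩ := hFG2 n hn s hsFG
        have h9 : lam (Q s) ≤ C1 * lam s ^ 2 := by
          rw [lamQ s hsFG.1 hn1]
          have h10 : sig s ≤ 4 * (n : ℝ) ^ 6 * lam s ^ 2 := by
            have h11 : sig s = hh s / n := rfl
            rw [h11]
            have h12 : 0 ≤ 4 * (n : ℝ) ^ 6 * lam s ^ 2 := by positivity
            rw [div_le_iff₀ (by linarith)]
            nlinarith
          rw [hC1]
          linarith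
        have hsym : (RFn.Ric s).IsSymm := (cRic s hsFG.1).1
        have h13 : qf (wdg (RFn.Ric s) 1) (pullv ι k.1.1) (pullv ι k.1.2) ≤ (n : ℝ) * lam s := by
          have h14 := (hWQ n (RFn.Ric s) (-(n : ℝ) ^ 2 * 0 - 0) ((n : ℝ) * lam s) hsym ?_ ?_
            (pullv ι k.1.1) (pullv ι k.1.2)).2.2
          · rwa [hq1, mul_one] at h14
          · intro v
            have h15 := (hFG2 n hn s hsFG).2.2.2.2.2.1 v
            have h16 : 0 ≤ nrm v := by
              unfold nrm
              exact Finset.sum_nonneg fun i _ => sq_nonneg _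
            have h17 : 0 ≤ lam s / 16 * nrm v := by positivity
            simp only [mul_zero, sub_zero, zero_mul]
            linarith
          · intro v
            refine (f7 v).trans ?_
            have h16 : 0 ≤ nrm v := by
              unfold nrm
              exact Finset.sum_nonneg fun i _ => sq_nonneg _
            apply mul_le_mul_of_nonneg_right _ h16
            apply mul_le_mul_of_nonneg_right _ hlp.le
            linarith
        have h18 : lam (wdg (RFn.Ric s) 1) = ((n : ℝ) - 1) * lam s := by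
          have h19 := Rw (RFn.Ric s) hsym
          have h20 : lam (wdg (RFn.Ric s) 1) = (∑ a, RFn.Ric (wdg (RFn.Ric s) 1) a a) / n := rfl
          have h21 : lam s = (∑ a, RFn.Ric s a a) / n := rfl
          have h22 : (RFn.Ric s).trace = ∑ a, RFn.Ric s a a := rfl
          rw [h20, h19, h21, h22]
          simp only [Matrix.add_apply, Matrix.smul_apply, smul_eq_mul, Matrix.one_apply_eq,
            Finset.sum_add_distrib, ← Finset.mul_sum, Finset.sum_const, Finset.card_univ,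
            Fintype.card_fin, nsmul_eq_mul]
          field_simp
          ring
        show 0 < F.ev z t' (F.Hop (ff F K (Sg F bet) k.1.1 k.1.2))
        rw [Hop_ff hPRD F hb, ev_gg hRP2 hRP3 F K z t' ι hι _ e3, e6, hq1, mul_one]
        have h23 : (2:ℝ) • Q s - (4 * β) • wdg (RFn.Ric s) 1 +
            (2 * ((n : ℝ) - 1) * β ^ 2 + -β ^ 2) • Id4 n =
            (2:ℝ) • Q s + (-(4 * β)) • wdg (RFn.Ric s) 1 +
            (2 * ((n : ℝ) - 1) * β ^ 2 + -β ^ 2) • Id4 n := by
          rw [sub_eq_add_neg, neg_smul]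
        rw [h23, qa, qa, qs, qs, qs, la, la, ls, ls, ls, lI, h18, hq1]
        -- numeric
        have h24 : β * (K * qf (wdg (RFn.Ric s) 1) (pullv ι k.1.1) (pullv ι k.1.2)) ≤
            (c2 * lam s) * (K * (n * lam s)) := by
          apply mul_le_mul hcase _ _ (by positivity)
          · exact mul_le_mul_of_nonneg_left h13 hK0.le
          · apply mul_nonneg hK0.le
            have h25 := (hWQ n (RFn.Ric s) 0 ((n : ℝ) * lam s) hsym ?_ ?_
              (pullv ι k.1.1) (pullv ι k.1.2)).2.1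
            · rwa [zero_mul] at h25
            · intro v
              have h15 := (hFG2 n hn s hsFG).2.2.2.2.2.1 v
              have h16 : 0 ≤ nrm v := by
                unfold nrm
                exact Finset.sum_nonneg fun i _ => sq_nonneg _
              have h17 : 0 ≤ lam s / 16 * nrm v := by positivity
              rw [zero_mul]
              linarith
            · intro v
              refine (f7 v).trans ?_
              have h16 : 0 ≤ nrm v := by
                unfold nrm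
                exact Finset.sum_nonneg fun i _ => sq_nonneg _
              apply mul_le_mul_of_nonneg_right _ h16
              apply mul_le_mul_of_nonneg_right _ hlp.le
              linarith
        have h26 : c2 * n = c / 8 := by rw [hc2]; field_simp
        have h27 : (c2 * lam s) * (K * (n * lam s)) = K * c / 8 * lam s ^ 2 := by
          calc (c2 * lam s) * (K * (n * lam s)) = (c2 * n) * K * lam s ^ 2 := by ring
            _ = _ := by rw [h26]; ring
        rw [h27] at h24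
        have h28 : 0 < lam s ^ 2 := by positivity
        have h29 : K * (c * lam s ^ 2) ≤ K * qf (Q s) (pullv ι k.1.1) (pullv ι k.1.2) :=
          mul_le_mul_of_nonneg_left h8 hK0.le
        have h30 : 2 * C1 * lam s ^ 2 ≤ K * c * lam s ^ 2 := mul_le_mul_of_nonneg_right hKc1 h28.le
        have h31 : 0 ≤ (2 * ((n : ℝ) - 1) * β ^ 2 + -β ^ 2) * (K - ((n:ℝ) - 1)) := by
          apply mul_nonneg
          · have : 0 ≤ β ^ 2 := sq_nonneg _
            nlinarith
          · linarith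
        have h32 : 0 ≤ β * (((n:ℝ) - 1) * lam s) :=
          mul_nonneg hβp.le (mul_nonneg (by linarith) hlp.le)
        have h33 : 0 < K * c * lam s ^ 2 := by positivity
        nlinarith
      · -- (ii)
        exfalso
        have h7 : K * β ≤ K * qf s (pullv ι k.1.1) (pullv ι k.1.2) :=
          mul_le_mul_of_nonneg_left h4 hK0.le
        have h8 : K * (c2 * lam s) < K * β := mul_lt_mul_of_pos_left hcase hK0
        nlinarith
  -- conclusion
  intro z t ι hι hA z' w'
  by_cases hq : qf (Id4 n) z' w' = 0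
  · rw [hq, ((hRP4 n).2.1 _ _).1 hq _ (hFG z t ι hι).1, mul_zero]
  · obtain ⟨z'', w'', n1, n2, -, n4, n5⟩ := ((hRP4 n).2.1 _ _).2 hq
    have e7 := hmain ⟨(fun i => ∑ a, (ι i a : ℂ) * z'' a, fun i => ∑ a, (ι i a : ℂ) * w'' a), by
      refine ⟨?_, ?_⟩
      · show ∑ i, Complex.normSq (∑ a, (ι i a : ℂ) * z'' a) ≤ 1
        rw [normSq_iota hι, n1]
      · show ∑ i, Complex.normSq (∑ a, (ι i a : ℂ) * w'' a) ≤ 1
        rw [normSq_iota hι, n2]⟩ z t
    obtain ⟨e1, e2, -, -, e5, -⟩ := hEV z t ι hι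
    obtain ⟨-, -, -, -, -, -, -, -, pz, pv, nn, qle⟩ := hRP3 n _ ι hι
    have e8 : F.ev z t (ff F K (Sg F bet) (fun i => ∑ a, (ι i a : ℂ) * z'' a)
        (fun i => ∑ a, (ι i a : ℂ) * w'' a)) =
        K * (qf (pull ι (F.rv z t)) z'' w'' + F.ev z t bet) -
          (F.ev z t F.lam + F.ev z t bet * ((n:ℝ) - 1)) := by
      rw [ev_ff hRP2 hRP3 F K z t ι hι (Sg F bet) e2, e1, pz, pz, n4, hs2 z t ι hι, qa, qs, n4]
      ring
    have e9 : 0 < K * (qf (pull ι (F.rv z t)) z'' w'' + F.ev z t bet) -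
          (F.ev z t F.lam + F.ev z t bet * ((n:ℝ) - 1)) := by
      rw [← e8]
      exact e7
    have ht := htpos t
    have e10 : F.ev z t bet * (2 * K) ≤ F.ev z t F.lam := by
      rw [hbev, ← div_eq_inv_mul, div_le_iff₀ ht]
      linarith
    have hbp := hbpos z t
    have e11 : F.ev z t F.lam / 2 ≤ K * qf (pull ι (F.rv z t)) z'' w'' := by
      have : 0 ≤ F.ev z t bet * ((n:ℝ) - 1) := mul_nonneg hbp.le (by linarith)
      nlinarith
    have e12 : 1 / (2 * K) * F.ev z t F.lam ≤ qf (pull ι (F.rv z t)) z'' w'' := by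
      rw [one_div, ← div_eq_inv_mul, div_le_iff₀ (by positivity)]
      linarith
    rw [n5 _ (hFG z t ι hι).1]
    calc 1 / (2 * K) * F.ev z t F.lam * qf (Id4 n) z' w'
        = qf (Id4 n) z' w' * (1 / (2 * K) * F.ev z t F.lam) := by ring
      _ ≤ qf (Id4 n) z' w' * qf (pull ι (F.rv z t)) z'' w'' :=
        mul_le_mul_of_nonneg_left e12 (q0 _ _)

end

end Pool.Agent.Helper47.FLG
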